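import Pool.Agent.helper34.MO.SpecD

/-!
# Row RSB of project MO: the sum of the degrees of the neighbours
-/

set_option autoImplicit false

open Complex Finset

namespace Pool.Agent.MO

private noncomputable def RSB_B (t : Tr) (i x y : ℕ) : ℝ :=
  (if (x = i ∧ y = i + t.sz + 1) ∨ (x = i + t.sz + 1 ∧ y = i) then 1 else 0) + AT t i x y

private noncomputable def RSB_e (a b : ℕ) : ℝ := if a = b then 1 else 0

private noncomputable def RSB_d (M : ℕ) (t : Tr) (i x : ℕ) : ℝ := ∑ y ∈ range M, RSB_B t i x y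

private noncomputable def RSB_q (M : ℕ) (t : Tr) (i x : ℕ) : ℝ :=
  ∑ w ∈ range M, RSB_B t i x w * RSB_d M t i w

private theorem RSB_ee (a : ℕ) : RSB_e a a = 1 := if_pos rfl

private theorem RSB_en {a b : ℕ} (h : a ≠ b) : RSB_e a b = 0 := if_neg h

private theorem RSB_es (M j : ℕ) (hj : j < M) (g : ℕ → ℝ) : ∑ w ∈ range M, RSB_e w j * g w = g j := by
  rw [Finset.sum_eq_single_of_mem j (mem_range.mpr hj) (fun b _ hb => by rw [RSB_en hb, zero_mul]), RSB_ee,
    one_mul]

private theorem RSB_b1 (hATS : ATS_stmt) (t : Tr) (i x y : ℕ) : RSB_B t i x y = RSB_B t i y x := by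
  unfold RSB_B
  rw [(hATS.1 t i x y).1]
  congr 1
  apply if_congr _ rfl rfl
  constructor
  · rintro (⟨h1, h2⟩ | ⟨h1, h2⟩)
    · exact Or.inr ⟨h2, h1⟩
    · exact Or.inl ⟨h2, h1⟩
  · rintro (⟨h1, h2⟩ | ⟨h1, h2⟩)
    · exact Or.inr ⟨h2, h1⟩
    · exact Or.inl ⟨h2, h1⟩

private theorem RSB_b2 (hATS : ATS_stmt) (t : Tr) (i x y : ℕ) : RSB_B t i x y = 0 ∨ RSB_B t i x y = 1 := by
  unfold RSB_B
  split_ifs with h
  · right
    have : AT t i x y = 0 := by
      rcases h with ⟨rfl, rfl⟩ | ⟨rfl, rfl⟩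
      · exact (hATS.1 t x x x).2.2.2.2
      · rw [(hATS.1 t y _ y).1]
        exact (hATS.1 t y y y).2.2.2.2
    rw [this, add_zero]
  · rw [zero_add]
    exact (hATS.1 t i x y).2.1

private theorem RSB_b3 (hATS : ATS_stmt) (t : Tr) (i x y : ℕ) (h : RSB_B t i x y ≠ 0) :
    i ≤ x ∧ x ≤ i + t.sz + 1 ∧ i ≤ y ∧ y ≤ i + t.sz + 1 := by
  unfold RSB_B at h
  split_ifs at h with h2
  · omega
  · rw [zero_add] at h
    exact (hATS.1 t i x y).2.2.2.1 h

private theorem RSB_z (hATS : ATS_stmt) (t : Tr) (i x y : ℕ)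
    (h : ¬ (i ≤ x ∧ x ≤ i + t.sz + 1 ∧ i ≤ y ∧ y ≤ i + t.sz + 1)) : RSB_B t i x y = 0 := by
  by_contra hc
  exact h (RSB_b3 hATS t i x y hc)

private theorem RSB_b4 (hATS : ATS_stmt) (t : Tr) (i x : ℕ) : RSB_B t i x x = 0 := by
  unfold RSB_B
  rw [if_neg (by omega), zero_add]
  exact (hATS.1 t i x x).2.2.1

private theorem RSB_b5 (hATS : ATS_stmt) (t : Tr) (i : ℕ) : RSB_B t i i (i + t.sz + 1) = 1 := by
  unfold RSB_B
  rw [if_pos (Or.inl ⟨rfl, rfl⟩), (hATS.1 t i i i).2.2.2.2, add_zero]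

private theorem RSB_nd (l r : Tr) (i x y : ℕ) : RSB_B (.nd l r) i x y =
    RSB_e x i * RSB_e y (i + l.sz + 1 + r.sz + 1) + RSB_e x (i + l.sz + 1 + r.sz + 1) * RSB_e y i +
      RSB_B l i x y + RSB_B r (i + l.sz + 1) x y := by
  have hj : i + (Tr.nd l r).sz + 1 = i + l.sz + 1 + r.sz + 1 := by
    show i + (l.sz + r.sz + 1) + 1 = _
    omega
  unfold RSB_B
  rw [hj]
  have hA : AT (.nd l r) i x y = (if (x = i ∧ y = i + l.sz + 1) ∨ (x = i + l.sz + 1 ∧ y = i) ∨
        (x = i + l.sz + 1 ∧ y = i + l.sz + 1 + r.sz + 1) ∨ (x = i + l.sz + 1 + r.sz + 1 ∧ y = i + l.sz + 1)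
      then 1 else 0) + AT l i x y + AT r (i + l.sz + 1) x y := rfl
  rw [hA]
  have e1 : (if (x = i ∧ y = i + l.sz + 1 + r.sz + 1) ∨ (x = i + l.sz + 1 + r.sz + 1 ∧ y = i) then (1 : ℝ) else 0) =
      RSB_e x i * RSB_e y (i + l.sz + 1 + r.sz + 1) + RSB_e x (i + l.sz + 1 + r.sz + 1) * RSB_e y i := by
    unfold RSB_e
    by_cases h1 : x = i
    · rw [if_pos h1, if_neg (show x ≠ i + l.sz + 1 + r.sz + 1 by omega), zero_mul, add_zero, one_mul]
      apply if_congr _ rfl rfl
      omega
    · rw [if_neg h1, zero_mul, zero_add]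
      by_cases h2 : x = i + l.sz + 1 + r.sz + 1
      · rw [if_pos h2, one_mul]
        apply if_congr _ rfl rfl
        omega
      · rw [if_neg h2, zero_mul, if_neg (by omega)]
  have e2 : (if (x = i ∧ y = i + l.sz + 1) ∨ (x = i + l.sz + 1 ∧ y = i) ∨
        (x = i + l.sz + 1 ∧ y = i + l.sz + 1 + r.sz + 1) ∨ (x = i + l.sz + 1 + r.sz + 1 ∧ y = i + l.sz + 1)
      then (1 : ℝ) else 0) = (if (x = i ∧ y = i + l.sz + 1) ∨ (x = i + l.sz + 1 ∧ y = i) then 1 else 0) +
      (if (x = i + l.sz + 1 ∧ y = i + l.sz + 1 + r.sz + 1) ∨ (x = i + l.sz + 1 + r.sz + 1 ∧ y = i + l.sz + 1)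
        then 1 else 0) := by
    by_cases h1 : (x = i ∧ y = i + l.sz + 1) ∨ (x = i + l.sz + 1 ∧ y = i)
    · rw [if_pos h1, if_pos (by omega), if_neg (by omega), add_zero]
    · rw [if_neg h1, zero_add]
      apply if_congr _ rfl rfl
      omega
  rw [e1, e2]
  ring

private theorem RSB_dn (l r : Tr) (M i x : ℕ) (hM : i + l.sz + 1 + r.sz + 1 < M) : RSB_d M (.nd l r) i x =
    RSB_e x i + RSB_e x (i + l.sz + 1 + r.sz + 1) + RSB_d M l i x + RSB_d M r (i + l.sz + 1) x := by
  unfold RSB_d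
  rw [Finset.sum_congr rfl (fun y _ => RSB_nd l r i x y), Finset.sum_add_distrib, Finset.sum_add_distrib,
    Finset.sum_add_distrib]
  have h1 := RSB_es M (i + l.sz + 1 + r.sz + 1) hM (fun _ => RSB_e x i)
  have h2 := RSB_es M i (by omega) (fun _ => RSB_e x (i + l.sz + 1 + r.sz + 1))
  rw [Finset.sum_congr rfl (fun y _ => mul_comm (RSB_e y (i + l.sz + 1 + r.sz + 1)) (RSB_e x i))] at h1
  rw [Finset.sum_congr rfl (fun y _ => mul_comm (RSB_e y i) (RSB_e x (i + l.sz + 1 + r.sz + 1)))] at h2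
  rw [h1, h2]

private theorem RSB_d0 (hATS : ATS_stmt) (M : ℕ) (t : Tr) (i x : ℕ) (h : ¬ (i ≤ x ∧ x ≤ i + t.sz + 1)) :
    RSB_d M t i x = 0 := by
  unfold RSB_d
  apply Finset.sum_eq_zero
  intro y _
  exact RSB_z hATS t i x y (fun hc => h ⟨hc.1, hc.2.1⟩)

private theorem RSB_q0 (hATS : ATS_stmt) (M : ℕ) (t : Tr) (i x : ℕ) (h : ¬ (i ≤ x ∧ x ≤ i + t.sz + 1)) :
    RSB_q M t i x = 0 := by
  unfold RSB_q
  apply Finset.sum_eq_zero
  intro y _
  rw [RSB_z hATS t i x y (fun hc => h ⟨hc.1, hc.2.1⟩), zero_mul]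

private theorem RSB_qn (hATS : ATS_stmt) (l r : Tr) (M i v k j : ℕ) (hk : k = i + l.sz + 1)
    (hj : j = k + r.sz + 1) (hM : j < M) :
    RSB_q M (.nd l r) i v = RSB_q M l i v + RSB_q M r k v + RSB_B l i v i + RSB_B l i v k * RSB_d M r k k +
      RSB_B r k v j + RSB_B r k v k * RSB_d M l i k + RSB_e v i * (1 + RSB_d M r k j) +
      RSB_e v j * (1 + RSB_d M l i i) := by
  have hD : ∀ w, RSB_d M (.nd l r) i w = RSB_e w i + RSB_e w j + RSB_d M l i w + RSB_d M r k w := by
    intro w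
    rw [RSB_dn l r M i w (by omega), hk, hj, hk]
  have hBn : ∀ w, RSB_B (.nd l r) i v w = RSB_e v i * RSB_e w j + RSB_e v j * RSB_e w i +
      RSB_B l i v w + RSB_B r k v w := by
    intro w
    rw [RSB_nd l r i v w, hj, hk]
  have hDj : RSB_d M (.nd l r) i j = 1 + RSB_d M r k j := by
    rw [hD, RSB_en (show j ≠ i by omega), RSB_ee, RSB_d0 hATS M l i j (by omega)]
    ring
  have hDi : RSB_d M (.nd l r) i i = 1 + RSB_d M l i i := by
    rw [hD, RSB_en (show i ≠ j by omega), RSB_ee, RSB_d0 hATS M r k i (by omega)]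
    ring
  have s1 : ∑ w ∈ range M, RSB_B l i v w * RSB_d M (.nd l r) i w =
      RSB_B l i v i + RSB_q M l i v + RSB_B l i v k * RSB_d M r k k := by
    have a1 : ∑ w ∈ range M, RSB_B l i v w * RSB_d M (.nd l r) i w =
        ∑ w ∈ range M, RSB_e w i * RSB_B l i v w + ∑ w ∈ range M, RSB_e w j * RSB_B l i v w + RSB_q M l i v +
          ∑ w ∈ range M, RSB_B l i v w * RSB_d M r k w := by
      unfold RSB_q
      rw [← Finset.sum_add_distrib, ← Finset.sum_add_distrib, ← Finset.sum_add_distrib]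
      refine Finset.sum_congr rfl fun w _ => ?_
      rw [hD w]
      ring
    rw [a1, RSB_es M i (by omega), RSB_es M j hM, RSB_z hATS l i v j (by omega),
      Finset.sum_eq_single_of_mem k (mem_range.mpr (by omega))]
    · ring
    · intro b _ hb
      by_cases h1 : b ≤ k
      · rw [RSB_d0 hATS M r k b (by omega), mul_zero]
      · rw [RSB_z hATS l i v b (by omega), zero_mul]
  have s2 : ∑ w ∈ range M, RSB_B r k v w * RSB_d M (.nd l r) i w =
      RSB_B r k v j + RSB_q M r k v + RSB_B r k v k * RSB_d M l i k := by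
    have a1 : ∑ w ∈ range M, RSB_B r k v w * RSB_d M (.nd l r) i w =
        ∑ w ∈ range M, RSB_e w i * RSB_B r k v w + ∑ w ∈ range M, RSB_e w j * RSB_B r k v w + RSB_q M r k v +
          ∑ w ∈ range M, RSB_B r k v w * RSB_d M l i w := by
      unfold RSB_q
      rw [← Finset.sum_add_distrib, ← Finset.sum_add_distrib, ← Finset.sum_add_distrib]
      refine Finset.sum_congr rfl fun w _ => ?_
      rw [hD w]
      ring
    rw [a1, RSB_es M i (by omega), RSB_es M j hM, RSB_z hATS r k v i (by omega),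
      Finset.sum_eq_single_of_mem k (mem_range.mpr (by omega))]
    · ring
    · intro b _ hb
      by_cases h1 : k ≤ b
      · rw [RSB_d0 hATS M l i b (by omega), mul_zero]
      · rw [RSB_z hATS r k v b (by omega), zero_mul]
  have s0 : RSB_q M (.nd l r) i v = ∑ w ∈ range M, RSB_e w j * (RSB_e v i * RSB_d M (.nd l r) i w) +
      ∑ w ∈ range M, RSB_e w i * (RSB_e v j * RSB_d M (.nd l r) i w) +
      ∑ w ∈ range M, RSB_B l i v w * RSB_d M (.nd l r) i w +
      ∑ w ∈ range M, RSB_B r k v w * RSB_d M (.nd l r) i w := by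
    conv_lhs => unfold RSB_q
    rw [← Finset.sum_add_distrib, ← Finset.sum_add_distrib, ← Finset.sum_add_distrib]
    refine Finset.sum_congr rfl fun w _ => ?_
    rw [hBn w]
    ring
  rw [s0, s1, s2, RSB_es M j hM, RSB_es M i (by omega), hDj, hDi]
  ring

private theorem RSB_main (hATS : ATS_stmt) (M : ℕ) (t : Tr) : ∀ i : ℕ, i + t.sz + 2 ≤ M →
    RSB_d M t i i ≤ t.sz + 1 ∧ RSB_d M t i (i + t.sz + 1) ≤ t.sz + 1 ∧
    RSB_d M t i i + RSB_d M t i (i + t.sz + 1) ≤ t.sz + 3 ∧
    (∀ v, i ≤ v → v ≤ i + t.sz + 1 → RSB_q M t i v ≤ 3 * RSB_d M t i v + ((t.sz : ℝ) - 2)) ∧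
    ∀ v, RSB_B t i v i = 1 → RSB_B t i v (i + t.sz + 1) = 1 → RSB_q M t i v ≤ 3 * RSB_d M t i v + ((t.sz : ℝ) - 3) := by
  induction t with
  | e =>
    intro i hM
    have hsz : Tr.e.sz = 0 := rfl
    rw [hsz] at hM
    have hB : ∀ x y, RSB_B .e i x y = if (x = i ∧ y = i + 1) ∨ (x = i + 1 ∧ y = i) then 1 else 0 := by
      intro x y
      unfold RSB_B
      rw [show AT .e i x y = 0 from rfl, add_zero]
      rfl
    have hd1 : RSB_d M .e i i = 1 := by
      unfold RSB_d
      rw [Finset.sum_eq_single_of_mem (i + 1) (mem_range.mpr (by omega)), hB, if_pos (Or.inl ⟨rfl, rfl⟩)]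
      intro b _ hb
      rw [hB, if_neg (by omega)]
    have hd2 : RSB_d M .e i (i + 1) = 1 := by
      unfold RSB_d
      rw [Finset.sum_eq_single_of_mem i (mem_range.mpr (by omega)), hB, if_pos (Or.inr ⟨rfl, rfl⟩)]
      intro b _ hb
      rw [hB, if_neg (by omega)]
    have hq1 : RSB_q M .e i i = 1 := by
      unfold RSB_q
      rw [Finset.sum_eq_single_of_mem (i + 1) (mem_range.mpr (by omega)), hB, if_pos (Or.inl ⟨rfl, rfl⟩), hd2,
        mul_one]
      intro b _ hb
      rw [hB, if_neg (by omega), zero_mul]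
    have hq2 : RSB_q M .e i (i + 1) = 1 := by
      unfold RSB_q
      rw [Finset.sum_eq_single_of_mem i (mem_range.mpr (by omega)), hB, if_pos (Or.inr ⟨rfl, rfl⟩), hd1,
        mul_one]
      intro b _ hb
      rw [hB, if_neg (by omega), zero_mul]
    rw [hsz]
    simp only [add_zero, Nat.cast_zero, zero_add, zero_sub]
    rw [hd1, hd2]
    refine ⟨le_refl _, le_refl _, by norm_num, ?_, ?_⟩
    · intro v h1 h2
      have : v = i ∨ v = i + 1 := by omega
      rcases this with rfl | rfl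
      · rw [hq1, hd1]; norm_num
      · rw [hq2, hd2]; norm_num
    · intro v h1 h2
      exfalso
      rw [hB] at h1 h2
      have h3 : (v = i ∧ i = i + 1) ∨ (v = i + 1 ∧ i = i) := by
        by_contra hc
        rw [if_neg hc] at h1
        exact zero_ne_one h1
      have h4 : (v = i ∧ i + 1 = i + 1) ∨ (v = i + 1 ∧ i + 1 = i) := by
        by_contra hc
        rw [if_neg hc] at h2
        exact zero_ne_one h2
      omega
  | nd l r ihl ihr =>
    intro i hM
    have hsz : (Tr.nd l r).sz = l.sz + r.sz + 1 := rfl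
    rw [hsz] at hM ⊢
    obtain ⟨k, hk⟩ : ∃ k, k = i + l.sz + 1 := ⟨_, rfl⟩
    obtain ⟨j, hj⟩ : ∃ j, j = k + r.sz + 1 := ⟨_, rfl⟩
    have hj2 : i + (l.sz + r.sz + 1) + 1 = j := by omega
    rw [hj2]
    have hjM : j < M := by omega
    have hD : ∀ w, RSB_d M (.nd l r) i w = RSB_e w i + RSB_e w j + RSB_d M l i w + RSB_d M r k w := by
      intro w
      rw [RSB_dn l r M i w (by omega), hk, hj, hk]
    have hBn : ∀ x w, RSB_B (.nd l r) i x w = RSB_e x i * RSB_e w j + RSB_e x j * RSB_e w i +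
        RSB_B l i x w + RSB_B r k x w := by
      intro x w
      rw [RSB_nd l r i x w, hj, hk]
    have hq := fun v => RSB_qn hATS l r M i v k j hk hj hjM
    obtain ⟨la, lb, lc, ld, le⟩ := ihl i (by omega)
    obtain ⟨ra, rb, rc, rd, re⟩ := ihr k (by omega)
    rw [← hk] at lb lc ld le
    rw [← hj] at rb rc rd re
    have hDj : RSB_d M (.nd l r) i j = 1 + RSB_d M r k j := by
      rw [hD, RSB_en (show j ≠ i by omega), RSB_ee, RSB_d0 hATS M l i j (by omega)]
      ring
    have hDi : RSB_d M (.nd l r) i i = 1 + RSB_d M l i i := by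
      rw [hD, RSB_en (show i ≠ j by omega), RSB_ee, RSB_d0 hATS M r k i (by omega)]
      ring
    have hDk : RSB_d M (.nd l r) i k = RSB_d M l i k + RSB_d M r k k := by
      rw [hD, RSB_en (show k ≠ i by omega), RSB_en (show k ≠ j by omega)]
      ring
    have blik : RSB_B l i i k = 1 := by rw [hk]; exact RSB_b5 hATS l i
    have blki : RSB_B l i k i = 1 := by rw [RSB_b1 hATS]; exact blik
    have brkj : RSB_B r k k j = 1 := by rw [hj]; exact RSB_b5 hATS r k
    have brjk : RSB_B r k j k = 1 := by rw [RSB_b1 hATS]; exact brkj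
    have hl0 : (0 : ℝ) ≤ l.sz := Nat.cast_nonneg _
    have hr0 : (0 : ℝ) ≤ r.sz := Nat.cast_nonneg _
    have hqk : RSB_q M (.nd l r) i k ≤ 3 * RSB_d M (.nd l r) i k + (((l.sz + r.sz + 1 : ℕ) : ℝ) - 3) := by
      have h1 := ld k (by omega) (le_refl _)
      have h2 := rd k (le_refl _) (by omega)
      rw [hq, hDk, blki, brkj, RSB_b4 hATS, RSB_b4 hATS, RSB_en (show k ≠ i by omega), RSB_en (show k ≠ j by omega)]
      push_cast
      linarith
    refine ⟨?_, ?_, ?_, ?_, ?_⟩
    · rw [hDi]; push_cast; linarith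
    · rw [hDj]; push_cast; linarith
    · rw [hDi, hDj]; push_cast; linarith
    · intro v hv1 hv2
      have hcase : v = i ∨ (i < v ∧ v < k) ∨ v = k ∨ (k < v ∧ v < j) ∨ v = j := by omega
      rcases hcase with h | ⟨h1, h2⟩ | h | ⟨h1, h2⟩ | h
      · rw [h]
        have h3 := ld i (le_refl _) (by omega)
        rw [hq, hDi, RSB_q0 hATS M r k i (by omega), RSB_b4 hATS, blik, RSB_z hATS r k i j (by omega),
          RSB_z hATS r k i k (by omega), RSB_ee, RSB_en (show i ≠ j by omega)]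
        push_cast
        linarith
      · have h3 := ld v (by omega) (by omega)
        have hdv : RSB_d M (.nd l r) i v = RSB_d M l i v := by
          rw [hD, RSB_en (show v ≠ i by omega), RSB_en (show v ≠ j by omega), RSB_d0 hATS M r k v (by omega)]
          ring
        rw [hq, hdv, RSB_q0 hATS M r k v (by omega), RSB_z hATS r k v j (by omega), RSB_z hATS r k v k (by omega),
          RSB_en (show v ≠ i by omega), RSB_en (show v ≠ j by omega)]
        rcases RSB_b2 hATS l i v i with e1 | e1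
        · rcases RSB_b2 hATS l i v k with e2 | e2
          · rw [e1, e2]; push_cast; linarith
          · rw [e1, e2]; push_cast; linarith
        · rcases RSB_b2 hATS l i v k with e2 | e2
          · rw [e1, e2]; push_cast; linarith
          · have h4 := le v e1 e2
            rw [e1, e2]; push_cast; linarith
      · rw [h]
        have h3 : (((l.sz + r.sz + 1 : ℕ) : ℝ) - 3) ≤ (((l.sz + r.sz + 1 : ℕ) : ℝ) - 2) := by linarith
        linarith
      · have h3 := rd v (by omega) (by omega)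
        have hdv : RSB_d M (.nd l r) i v = RSB_d M r k v := by
          rw [hD, RSB_en (show v ≠ i by omega), RSB_en (show v ≠ j by omega), RSB_d0 hATS M l i v (by omega)]
          ring
        rw [hq, hdv, RSB_q0 hATS M l i v (by omega), RSB_z hATS l i v i (by omega), RSB_z hATS l i v k (by omega),
          RSB_en (show v ≠ i by omega), RSB_en (show v ≠ j by omega)]
        rcases RSB_b2 hATS r k v k with e1 | e1
        · rcases RSB_b2 hATS r k v j with e2 | e2
          · rw [e1, e2]; push_cast; linarith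
          · rw [e1, e2]; push_cast; linarith
        · rcases RSB_b2 hATS r k v j with e2 | e2
          · rw [e1, e2]; push_cast; linarith
          · have h4 := re v e1 e2
            rw [e1, e2]; push_cast; linarith
      · rw [h]
        have h3 := rd j (by omega) (le_refl _)
        rw [hq, hDj, RSB_q0 hATS M l i j (by omega), RSB_b4 hATS, brjk, RSB_z hATS l i j i (by omega),
          RSB_z hATS l i j k (by omega), RSB_ee, RSB_en (show j ≠ i by omega)]
        push_cast
        linarith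
    · intro v h1 h2
      have hvi : v ≠ i := by
        rintro rfl
        rw [RSB_b4 hATS] at h1
        exact zero_ne_one h1
      have hvj : v ≠ j := by
        rintro rfl
        rw [RSB_b4 hATS] at h2
        exact zero_ne_one h2
      rw [hBn, RSB_en hvi, RSB_en hvj, RSB_z hATS r k v i (by omega)] at h1
      rw [hBn, RSB_en hvi, RSB_en hvj, RSB_z hATS l i v j (by omega)] at h2
      have h3 : RSB_B l i v i ≠ 0 := by
        intro hc
        rw [hc] at h1
        norm_num at h1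
      have h4 : RSB_B r k v j ≠ 0 := by
        intro hc
        rw [hc] at h2
        norm_num at h2
      have h5 := RSB_b3 hATS l i v i h3
      have h6 := RSB_b3 hATS r k v j h4
      have hvk : v = k := by omega
      rw [hvk]
      exact hqk

theorem RSB (hATS : ATS_stmt) : RSB_stmt := by
  intro τ v hv
  rw [mem_range] at hv
  have hB : ∀ x y, RSB_B τ 0 x y = AG τ x y := by
    intro x y
    unfold RSB_B AG
    rw [zero_add]
  have h := (RSB_main hATS (τ.sz + 2) τ 0 (by omega)).2.2.2.1 v (by omega) (by omega)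
  unfold RSB_q RSB_d at h
  simp only [hB] at h
  linarith

end Pool.Agent.MO
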